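import Mathlib
import Pool.Agent.H.MP_ee9c6f_al.E4.OfRep
import Pool.Agent.H.MP_ee9c6f_al.E4Rep.Main

/-!
# A subgroup of the mapping class group of genus four with two relative ends

The mapping class group of the closed surface of genus `4`, given by the presentation of Wajnryb
(Theorem 5.3 of the book of Farb and Margalit, *A primer on mapping class groups*), has a normal
subgroup `M` of finite index and a homomorphism `f` of `M` onto `ℤ` whose kernel `H` is finitely
generated. The number of relative ends `e(Mod 4, H)` is `2`.

Idea. (1) There is an affine action of `Mod 4` on a vector space of dimension `81 = 3 ^ 4` over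
`ℚ(ω)`, `ω ^ 2 + ω + 1 = 0`, in which the Humphries twists act as affine maps `v ↦ T v + τ` of order
`3`; the linear parts are `T = 1 + (ω - 1) (1 + h + h ^ 2) / 3` for elements `h` of a Heisenberg
group, they generate a finite group, and the action has no fixed point. A subgroup of finite index
acts by translations. (2) `f` is a generic coordinate of the translation. The element
`z = (c₀ b₁⁻¹) ^ 3`, which is supported in a sphere with four holes, is a nonzero translation. There
is a finite generating set `S` such that `z` commutes with `s z s⁻¹` for `s ∈ S`, and this implies
that the kernel of `f` is finitely generated.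
-/

open Pool.Agent.H.MP_ee9c6f_al

/-- The mapping class group `Mod 4` of the closed surface of genus `4` (by Wajnryb's presentation)
has a normal subgroup `M` of finite index and a homomorphism `f` of `M` onto `ℤ` such that the kernel
`H` of `f` is finitely generated and has exactly two relative ends in `Mod 4`, computed with any
finite generating set `S`. -/
theorem Pool.Agent.Results.MP_ee9c6f_al.GenusFour.result :
    ∃ M : Subgroup (Wajnryb.Mod 4), M.Normal ∧ M.FiniteIndex ∧ ∃ f : M →* Multiplicative ℤ,
      Function.Surjective f ∧ (f.ker.map M.subtype).FG ∧
        ∀ S : Set (Wajnryb.Mod 4), S.Finite → Subgroup.closure S = ⊤ →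
          relEnds S (f.ker.map M.subtype) = 2 :=
  E4.two_of_rep' E4.Rep.main
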