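import Mathlib
import Pool.Agent.H.MP_ee9c6f_al.G3X.Main
import Pool.Agent.H.MP_ee9c6f_al.G3F.Fin

/-!
# A subgroup of the mapping class group of genus three with two relative ends

The mapping class group of the closed surface of genus `3`, given by the presentation of Wajnryb
(Theorem 5.3 of the book of Farb and Margalit, *A primer on mapping class groups*), has a normal
subgroup `M` of finite index and a homomorphism `f` of `M` onto `ℤ` whose kernel `H` is finitely
generated. The number of relative ends `e(Mod 3, H)` is `2`.

Idea. (1) `Mod 3` acts on the disjoint union of `28` vector spaces of dimension `8` over `ℚ(i)` by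
maps which are affine between these spaces, with linear parts in a finite group; the Humphries
twists are of order `4`. (2) The subgroup `G` generated by `T₀, T₁², T₂, …, T₆` has finite index and
preserves one of the spaces, `V`. The subgroup `K` generated by `T₀, T₁², T₂, T₃, T₅, T₆` fixes a
point `p` of `V`. (3) `f` is a generic rational functional `ν` of the translation. For every coset
`g K` the neighbours `g k T₄^{±1} K` (`k` in `K`) which are higher than `g K` with respect to `ν` are
joined by paths of cosets which are higher than `g K`; the main point is a winding argument for the
`24` directions `L(k) (T₄ p - p)`, `k` in `⟨T₅, T₆⟩`, over the vertices of an octahedron. Hence the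
sets of cosets above (below) a given height are connected, and the kernel of `f` is finitely
generated.
-/

open Pool.Agent.H.MP_ee9c6f_al

/-- The mapping class group `Mod 3` of the closed surface of genus `3` (by Wajnryb's presentation)
has a normal subgroup `M` of finite index and a homomorphism `f` of `M` onto `ℤ` such that the kernel
`H` of `f` is finitely generated and has exactly two relative ends in `Mod 3`, computed with any
finite generating set `S`. -/
theorem Pool.Agent.Results.MP_ee9c6f_al.GenusThree.result :
    ∃ M : Subgroup (Wajnryb.Mod 3), M.Normal ∧ M.FiniteIndex ∧ ∃ f : M →* Multiplicative ℤ,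
      Function.Surjective f ∧ (f.ker.map M.subtype).FG ∧
        ∀ S : Set (Wajnryb.Mod 3), S.Finite → Subgroup.closure S = ⊤ →
          relEnds S (f.ker.map M.subtype) = 2 :=
  Wajnryb.two_three (G3X.twoEnds (G3F.fin_index_of_mem le_rfl G3X.Gs
    (by rw [pow_two]; exact G3X.T11_mem) fun _ hi => G3X.T_mem hi))
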