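import Mathlib
import Pool.Agent.H.MP_ee9c6f_al.E2.Final

/-!
# The numbers of relative ends of the subgroups of the mapping class group of genus two

helper40 and helper70.
-/

open Pool.Agent.H.MP_ee9c6f_al Pool.Agent.H.MP_ee9c6f_al.E2

/-- Every value `v` in `{0, 1, 2, …} ∪ {∞}` is the number of relative ends of a finitely generated
subgroup `H` of the mapping class group of genus two (given by the presentation of Birman and
Hilden); here the number of relative ends may be computed in the Schreier graph with respect to any
finite generating set `S`. -/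
theorem Pool.Agent.Results.MP_ee9c6f_al.GenusTwo.result (v : ℕ∞) :
    ∃ H : Subgroup Mod2, H.FG ∧ ∀ S : Set Mod2, S.Finite → Subgroup.closure S = ⊤ →
      relEnds S H = v := by
  induction v using ENat.recTopCoe with
  | top =>
    obtain ⟨H, hH, h⟩ := exists_infty
    exact ⟨H, hH, fun S hfin hS => relEnds_eq_top hfin hS H h⟩
  | coe n =>
    by_cases hn : n = 0
    · subst hn
      obtain ⟨H, hH, h⟩ := exists_zero
      exact ⟨H, hH, fun S hfin hS => relEnds_eq_of_forall hfin hS H 0 h⟩
    · obtain ⟨H, hH, h⟩ := exists_pos n hn
      exact ⟨H, hH, fun S hfin hS => relEnds_eq_of_forall hfin hS H n h⟩
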