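import Mathlib
import Pool.Agent.H.MP_ee9c6f_al.Stmt
import Pool.Agent.H.MP_ee9c6f_al.Hom

/-!
# Subgroups of the mapping class group with more than one relative end contain powers of twists
-/

open Pool.Agent.H.MP_ee9c6f_al

/-- Let `g ≥ 3` and let `H` be a subgroup of infinite index of the mapping class group. Then `H` has
exactly one relative end, or the following holds. One of the alternatives `CaseI`, `CaseII` holds;
in both of them a conjugate of `H` contains positive powers of all Lickorish twists except possibly
those about `a_0` and `b_0`. And a subspace of the first rational cohomology group of the surface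
that is preserved by some positive power of every element of `H` has dimension or codimension at
most one. -/
theorem Pool.Agent.Results.MP_ee9c6f_al.PowersOfTwists.result (g : ℕ) (hg : 3 ≤ g)
    (S : Set (St.Mod g)) (hS : Subgroup.closure S = ⊤) (H : Subgroup (St.Mod g))
    (hH : ¬ H.FiniteIndex) :
    relEnds S H = 1 ∨ ((St.CaseI g H ∨ St.CaseII g (by omega) H) ∧
      ∀ W : Submodule ℚ (St.H1 g), St.Invariant H W →
        Module.finrank ℚ W ≤ 1 ∨ 2 * g - 1 ≤ Module.finrank ℚ W) := by
  by_cases h : 2 ≤ relEnds S H
  · rcases St.first hg S hS H hH with h1 | h1
    · exact Or.inl h1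
    · exact Or.inr ⟨h1, fun W hW => St.invariant_subspace hg hS h hW⟩
  · exact Or.inl (St.one_of_not_two hS hH h)
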